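import Mathlib
import Pool.Graph.R_pool_sql_team_22a80281.Lib.helper17_.Box

set_option autoImplicit false
open MeasureTheory

namespace Pool.Agent.Results.MP_e081a1_an.EverySmallScale

/-- The metric space `X` has bounded geometry. -/
def BoundedGeometry (X : Type) [MetricSpace X] : Prop :=
  ∀ R : ℝ, 0 < R → ∃ N : ℕ, ∀ x : X, (Metric.ball x R).Finite ∧ (Metric.ball x R).ncard ≤ N

/-- Yu's property A. -/
def PropertyA (X : Type) [MetricSpace X] : Prop :=
  ∀ R : ℝ, 0 < R → ∀ ε : ℝ, 0 < ε → ∃ S : ℝ, ∃ A : X → Set (X × ℕ),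
    (∀ x, (A x).Finite) ∧ (∀ x, (x, 0) ∈ A x) ∧ (∀ x, ∀ w ∈ A x, dist w.1 x ≤ S) ∧
    ∀ x y, dist x y < R →
      ((symmDiff (A x) (A y)).ncard : ℝ) < ε * ((A x ∩ A y).ncard : ℝ)

/-- Every bounded operator from the normed space `V` to a normed space attains the fraction `c` of
its norm at a nonzero vector with property `P`. -/
def AttainsAt {V : Type} [NormedAddCommGroup V] [NormedSpace ℝ V] (P : V → Prop) (c : ℝ) : Prop :=
  ∀ (F : Type) [NormedAddCommGroup F] [NormedSpace ℝ F] (T : V →L[ℝ] F),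
    ∃ ξ : V, ξ ≠ 0 ∧ P ξ ∧ c * ‖T‖ * ‖ξ‖ ≤ ‖T ξ‖

/-- The class `ξ` in `L¹(ν; E)` vanishes almost everywhere off one of the sets of the family
`C`. -/
def VanishesOff {X : Type} [MeasurableSpace X] {ν : Measure X} {E : Type} [NormedAddCommGroup E]
    (C : Set (Set X)) (ξ : Lp E 1 ν) : Prop := ∃ s ∈ C, ∀ᵐ z ∂ν, z ∉ s → ⇑ξ z = 0

/-- Every bounded operator from `L¹(ν; E)` to a normed space attains the fraction `c` of its norm
at a nonzero function vanishing off one of the sets of the family `C`. -/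
def LocalizedIn {X : Type} [MeasurableSpace X] (ν : Measure X) (E : Type) [NormedAddCommGroup E]
    [NormedSpace ℝ E] (c : ℝ) (C : Set (Set X)) : Prop :=
  AttainsAt (VanishesOff (ν := ν) (E := E) C) c

theorem onl {X E F : Type} [MeasurableSpace X]
    [NormedAddCommGroup E] [NormedSpace ℝ E] [NormedAddCommGroup F] [NormedSpace ℝ F]
    (ν : Measure X) (P : ℕ → Set X) (hm : ∀ n, MeasurableSet (P n))
    (hd : Pairwise (Function.onFun Disjoint P)) (hU : ⋃ n, P n = Set.univ)
    (ζ : Lp E 1 ν) (hζ : ζ ≠ 0) (c : ℝ) (hc0 : 0 ≤ c) (hc1 : c < 1)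
    (T : Lp E 1 ν →L[ℝ] F) :
    ∃ ξ : Lp E 1 ν, ξ ≠ 0 ∧ (∃ n, ∀ᵐ z ∂ν, z ∉ P n → ⇑ξ z = 0) ∧
      c * ‖T‖ * ‖ξ‖ ≤ ‖T ξ‖ := by
  classical
  by_contra hc
  push Not at hc
  have k0 : ∀ ξ : Lp E 1 ν, (∃ n, ∀ᵐ z ∂ν, z ∉ P n → ⇑ξ z = 0) →
      ‖T ξ‖ ≤ c * ‖T‖ * ‖ξ‖ := by
    intro ξ h
    by_cases h1 : ξ = 0
    · simp [h1]
    · exact (hc ξ h1 h).le
  let G : Lp E 1 ν → Set X → Lp E 1 ν := fun g s =>
    if h : MeasurableSet s then ((Lp.memLp g).indicator (s := s) h).toLp _ else 0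
  have hG : ∀ g s, MeasurableSet s → G g s =ᵐ[ν] s.indicator g := by
    intro g s h
    simp only [G, dif_pos h]
    exact MemLp.coeFn_toLp _
  let Q : Finset ℕ → Set X := fun s => ⋃ i ∈ s, P i
  have hQ : ∀ s, MeasurableSet (Q s) := fun s => Finset.measurableSet_biUnion s fun i _ => hm i
  have k1 : ∀ g : Lp E 1 ν, ‖T g‖ ≤ c * ‖T‖ * ‖g‖ := by
    intro g
    have hi : Integrable (fun z => ‖g z‖) ν := (L1.integrable_coeFn g).norm
    have n1 : ∀ s, MeasurableSet s → ‖G g s‖ = ∫ z in s, ‖g z‖ ∂ν := by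
      intro s hs
      rw [L1.norm_eq_integral_norm, ← integral_indicator hs]
      refine integral_congr_ae ?_
      filter_upwards [hG g s hs] with z hz
      rw [hz, norm_indicator_eq_indicator_norm]
    have n2 : ∀ s t, MeasurableSet s → MeasurableSet t → Disjoint s t →
        G g (s ∪ t) = G g s + G g t := by
      intro s t hs ht h
      refine Lp.ext ?_
      filter_upwards [hG g (s ∪ t) (hs.union ht), Lp.coeFn_add (G g s) (G g t), hG g s hs,
        hG g t ht] with z a b c d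
      rw [a, b, Pi.add_apply, c, d, Set.indicator_union_of_disjoint h]
    have n3 : G g Set.univ = g := Lp.ext (by simpa using hG g Set.univ .univ)
    have n4 : ∀ s : Finset ℕ, ‖T (G g (Q s))‖ ≤ c * ‖T‖ * ∫ z in Q s, ‖g z‖ ∂ν := by
      intro s
      induction s using Finset.induction_on with
      | empty =>
        have : G g (Q ∅) = 0 := by
          rw [← norm_eq_zero, n1 _ (hQ ∅)]
          simp [Q]
        rw [this]
        simp [Q]
      | insert a s ha ih =>
        have e : Q (insert a s) = P a ∪ Q s := by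
          simp only [Q, Finset.set_biUnion_insert]
        have d : Disjoint (P a) (Q s) := by
          simp only [Q, Set.disjoint_iUnion_right]
          intro i hi
          exact hd fun h => ha (h ▸ hi)
        rw [e, n2 _ _ (hm a) (hQ s) d, map_add,
          setIntegral_union d (hQ s) hi.integrableOn hi.integrableOn, mul_add, ← n1 _ (hm a)]
        refine (norm_add_le _ _).trans (add_le_add (k0 _ ⟨a, ?_⟩) ih)
        filter_upwards [hG g (P a) (hm a)] with z hz h
        rw [hz, Set.indicator_of_notMem h]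
    have n5 : ∀ s : Finset ℕ, ‖T g‖ ≤ c * ‖T‖ * (∫ z in Q s, ‖g z‖ ∂ν) +
        ‖T‖ * (‖g‖ - ∫ z in Q s, ‖g z‖ ∂ν) := by
      intro s
      have e1 : T g = T (G g (Q s)) + T (G g (Q s)ᶜ) := by
        rw [← map_add, ← n2 _ _ (hQ s) (hQ s).compl disjoint_compl_right, Set.union_compl_self, n3]
      have e2 := T.le_opNorm (G g (Q s)ᶜ)
      rw [n1 _ (hQ s).compl, setIntegral_compl (hQ s) hi, ← L1.norm_eq_integral_norm] at e2
      rw [e1]
      exact (norm_add_le _ _).trans (add_le_add (n4 s) e2)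
    have n6 := tendsto_setIntegral_of_monotone (μ := ν) (f := fun z => ‖g z‖)
      (s := Q) hQ (fun s t h => Set.biUnion_subset_biUnion_left h)
      hi.integrableOn
    have e3 : (⋃ s : Finset ℕ, Q s) = Set.univ := by
      refine Set.eq_univ_of_forall fun x => ?_
      have hx : x ∈ ⋃ n, P n := hU ▸ Set.mem_univ x
      obtain ⟨n, hn⟩ := Set.mem_iUnion.1 hx
      exact Set.mem_iUnion.mpr ⟨{n}, by simpa [Q] using hn⟩
    rw [e3, setIntegral_univ, ← L1.norm_eq_integral_norm] at n6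
    have := ge_of_tendsto' ((n6.const_mul (c * ‖T‖)).add
      ((n6.const_sub ‖g‖).const_mul ‖T‖)) n5
    simpa using this
  have k2 : ‖T‖ ≤ c * ‖T‖ := T.opNorm_le_bound (by positivity) k1
  have k3 : ‖T‖ = 0 := by nlinarith [norm_nonneg T]
  obtain ⟨n, hn⟩ : ∃ n, G ζ (P n) ≠ 0 := by
    by_contra h
    push Not at h
    refine hζ (Lp.ext ?_)
    have h1 : ∀ n, ∀ᵐ z ∂ν, (P n).indicator ζ z = 0 := by
      intro n
      have h2 := hG ζ (P n) (hm n)
      rw [h n] at h2
      filter_upwards [h2, Lp.coeFn_zero E 1 ν] with z a b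
      rw [← a, b]
      rfl
    filter_upwards [ae_all_iff.2 h1, Lp.coeFn_zero E 1 ν] with z a b
    rw [b]
    have hx : z ∈ ⋃ n, P n := hU ▸ Set.mem_univ z
    obtain ⟨n, hn⟩ := Set.mem_iUnion.1 hx
    have := a n
    rwa [Set.indicator_of_mem hn] at this
  have := hc (G ζ (P n)) hn ⟨n, by
    filter_upwards [hG ζ (P n) (hm n)] with z hz h
    rw [hz, Set.indicator_of_notMem h]⟩
  rw [k3] at this
  linarith [norm_nonneg (T (G ζ (P n)))]

/-- Localization in every countable measurable cover. -/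
theorem cover {X : Type} [MeasurableSpace X] (ν : Measure X) [SigmaFinite ν] (h0 : ν ≠ 0)
    (E : Type) [NormedAddCommGroup E] [NormedSpace ℝ E] [Nontrivial E] (c : ℝ) (hc : c < 1)
    (C : Set (Set X)) (hC : C.Countable) (hm : ∀ s ∈ C, MeasurableSet s)
    (hU : ⋃₀ C = Set.univ) : LocalizedIn ν E c C := by
  intro F _ _ T
  have hne : Nonempty X := by
    by_contra h
    rw [not_nonempty_iff] at h
    exact h0 (Measure.eq_zero_of_isEmpty ν)
  have hCne : C.Nonempty := by
    obtain ⟨x⟩ := hne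
    have hx : x ∈ ⋃₀ C := hU ▸ Set.mem_univ x
    obtain ⟨s, hs, -⟩ := hx
    exact ⟨s, hs⟩
  obtain ⟨f, hf⟩ := hC.exists_eq_range hCne
  have hfm : ∀ n, MeasurableSet (f n) := fun n => hm _ (hf ▸ Set.mem_range_self n)
  obtain ⟨s, hs1, hs2, hs3⟩ : ∃ s, MeasurableSet s ∧ ν s ≠ 0 ∧ ν s ≠ ⊤ := by
    by_contra h
    push Not at h
    apply h0
    rw [← Measure.measure_univ_eq_zero, ← iUnion_spanningSets ν]
    refine measure_iUnion_null fun n => ?_
    by_contra h1
    exact (measure_spanningSets_lt_top ν n).ne (h _ (measurableSet_spanningSets ν n) h1)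
  obtain ⟨e, he⟩ := exists_ne (0 : E)
  obtain ⟨ξ, a, ⟨n, b⟩, d⟩ := onl ν (disjointed f) (MeasurableSet.disjointed hfm)
    (disjoint_disjointed f) (by
      rw [iUnion_disjointed, ← hU, hf, Set.sUnion_range]) (indicatorConstLp 1 hs1 hs3 e) (by
      rw [← norm_ne_zero_iff, norm_indicatorConstLp one_ne_zero ENNReal.one_ne_top]
      simp [he, measureReal_def, ENNReal.toReal_eq_zero_iff, hs2, hs3])
    (max c 0) (le_max_right _ _) (max_lt hc one_pos) T
  refine ⟨ξ, a, ⟨f n, hf ▸ Set.mem_range_self n, ?_⟩, le_trans ?_ d⟩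
  · filter_upwards [b] with z hz h
    exact hz fun h1 => h (disjointed_subset f n h1)
  · gcongr
    exact le_max_left _ _

/-- Operators on `L¹(ν; E)` are localized, with every constant `c < 1`, (1) in one set of any
countable measurable cover, for every nonzero sigma-finite measure; (2) at every scale `δ > 0` on
every separable metric space; (3) at single points if balls are finite; (4) but there is a space
with bounded geometry without property A. -/
theorem result :
    (∀ (X : Type) [MeasurableSpace X] (ν : Measure X) [SigmaFinite ν], ν ≠ 0 →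
      ∀ (E : Type) [NormedAddCommGroup E] [NormedSpace ℝ E] [Nontrivial E], ∀ c : ℝ, c < 1 →
      ∀ C : Set (Set X), C.Countable → (∀ s ∈ C, MeasurableSet s) → ⋃₀ C = Set.univ →
        LocalizedIn ν E c C) ∧
    (∀ (X : Type) [MetricSpace X] [TopologicalSpace.SeparableSpace X] [MeasurableSpace X]
      [BorelSpace X] (ν : Measure X) [SigmaFinite ν], ν ≠ 0 →
      ∀ (E : Type) [NormedAddCommGroup E] [NormedSpace ℝ E] [Nontrivial E], ∀ c : ℝ, c < 1 →
      ∀ δ : ℝ, 0 < δ → LocalizedIn ν E c (Set.range fun x : X => Metric.ball x δ)) ∧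
    (∀ (X : Type) [MetricSpace X] [MeasurableSpace X] [BorelSpace X],
      (∀ (x : X) (R : ℝ), (Metric.ball x R).Finite) →
      ∀ (ν : Measure X) [IsLocallyFiniteMeasure ν], ν ≠ 0 →
      ∀ (E : Type) [NormedAddCommGroup E] [NormedSpace ℝ E] [Nontrivial E], ∀ c : ℝ, c < 1 →
        LocalizedIn ν E c (Set.range fun x : X => {x})) ∧
    ∃ (X : Type) (_ : MetricSpace X), BoundedGeometry X ∧ ¬ PropertyA X := by
  refine ⟨fun X _ ν _ h0 E _ _ _ c hc C hC hm hU => cover ν h0 E c hc C hC hm hU, ?_, ?_, ?_⟩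
  · intro X _ _ _ _ ν _ h0 E _ _ _ c hc δ hδ F _ _ T
    obtain ⟨D, hD1, hD2⟩ := TopologicalSpace.exists_countable_dense X
    obtain ⟨ξ, a, ⟨s, hs, b⟩, d⟩ := cover ν h0 E c hc ((fun x : X => Metric.ball x δ) '' D)
      (hD1.image _) (by
        rintro s ⟨x, -, rfl⟩
        exact measurableSet_ball) (by
        refine Set.eq_univ_of_forall fun x => ?_
        obtain ⟨y, hy, hxy⟩ := hD2.exists_dist_lt x hδ
        exact ⟨_, ⟨y, hy, rfl⟩, hxy⟩) F T
    obtain ⟨x, -, rfl⟩ := hs
    exact ⟨ξ, a, ⟨_, ⟨x, rfl⟩, b⟩, d⟩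
  · intro X _ _ _ hfin ν _ h0 E _ _ _ c hc
    have hcount : Countable X := by
      rcases isEmpty_or_nonempty X with h | ⟨⟨x⟩⟩
      · infer_instance
      · rw [← Set.countable_univ_iff]
        refine (Set.countable_iUnion fun n : ℕ => (hfin x n).countable).mono fun y _ => ?_
        obtain ⟨n, hn⟩ := exists_nat_gt (dist y x)
        exact Set.mem_iUnion.2 ⟨n, hn⟩
    refine cover ν h0 E c hc _ (Set.countable_range _) ?_ ?_
    · rintro s ⟨x, rfl⟩
      exact measurableSet_singleton x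
    · exact Set.eq_univ_of_forall fun x => ⟨_, ⟨x, rfl⟩, rfl⟩
  · refine ⟨H17Box.X, inferInstance, fun R _ => H17Box.bdd_geom R, fun h => ?_⟩
    obtain ⟨S, A, h1, h2, h3, h4⟩ := h 2 (by norm_num) (1 / 2) (by norm_num)
    exact H17Box.not_A S A h1 (fun x => ⟨_, h2 x⟩) h3 h4

end Pool.Agent.Results.MP_e081a1_an.EverySmallScale
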